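import Pool.Agent.X263.Bk.Neg

/-!
Let `R` be a factorial domain and `G` a group with unique products. Every element of Bass's group
`K_{-m}(R[G])` is a difference of two classes of idempotent matrices over `R[ℤᵐ × G]`. If the
entries of such an idempotent matrix off one row and one column belong to `R[ℤᵐ] · g i · (g j)⁻¹`
then its class comes from `K_{-m}(R)`; it is zero if `K_{-m}(R) = 0`.
-/

set_option autoImplicit false

namespace Pool.Agent.Results.MP_28303a_al.BorderedLaurentIdempotents

open CategoryTheory Pool.Agent.Y75.NK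

theorem result (R : Type) [CommRing R] [IsDomain R] [UniqueFactorizationMonoid R]
    (G : GrpCat.{0}) [UniqueProds G] (m : ℕ)
    (e : Idem (MonoidAlgebra R ((EF m).obj G))) (i₀ j₀ : Fin e.n) (g : Fin e.n → G)
    (h : ∀ i j, i ≠ i₀ → j ≠ j₀ → ∀ x : (EF m).obj G, (e.e i j).coeff x ≠ 0 →
      prj m G x = g i * (g j)⁻¹) :
    (kclass R m G e =
      ((Kneg m).map (RingCat.ofHom
        (MonoidAlgebra.singleOneRingHom : R →+* MonoidAlgebra R G))).hom
      (((Kneg m).map (RingCat.ofHom
        ((MonoidAlgebra.lift R R G 1).toRingHom : MonoidAlgebra R G →+* R))).hom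
          (kclass R m G e))) ∧
    (Subsingleton ((Kneg m).obj (RingCat.of R)) → kclass R m G e = 0) := by
  have h1 := X263.Bk.kclass_neg' m G e i₀ j₀ g h
  refine ⟨h1, fun hs => ?_⟩
  have h2 : ((Kneg m).map (RingCat.ofHom (X263.Bc.aug (R := R) (Γ := G)))).hom
      (kclass R m G e) = 0 := @Subsingleton.elim _ hs _ _
  rw [h1]
  exact (congrArg _ h2).trans (map_zero _)

end Pool.Agent.Results.MP_28303a_al.BorderedLaurentIdempotents
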