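import Mathlib
import Pool.Agent.X267.CC.KNeg

set_option autoImplicit false

/-!
Let `R` be a domain of characteristic zero in which no prime number is invertible and `G` any
torsion-free group. Classes in Bass's group `K_{-m}(R[G])` of idempotent matrices over
`R[ℤᵐ × G]` whose entries off the row and column of one index belong to `R[ℤᵐ] · g i · (g j)⁻¹`.
-/

namespace Pool.Agent.Results.MP_28303a_al.ConstantCoreLaurent

open CategoryTheory Pool.Agent.Y75.NK

/-- **Main theorem.** -/
theorem result (R : Type) [CommRing R] [IsDomain R] [CharZero R]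
    (hR : ∀ p : ℕ, p.Prime → ¬ IsUnit (p : R))
    (G : GrpCat.{0}) (hG : ∀ g : G, IsOfFinOrder g → g = 1) (m : ℕ)
    (e : Idem (MonoidAlgebra R ((EF m).obj G))) (i₀ : Fin e.n) (g : Fin e.n → G)
    (h : ∀ i j, i ≠ i₀ → j ≠ i₀ → ∀ x : (EF m).obj G, (e.e i j).coeff x ≠ 0 →
      prj m G x = g i * (g j)⁻¹)
    (hz : (∀ x : (EF m).obj G, (e.e i₀ i₀).coeff x ≠ 0 → prj m G x = 1) →
      e.e i₀ i₀ = 0 ∨ e.e i₀ i₀ = 1) :
    (kclass R m G e =
      ((Kneg m).map (RingCat.ofHom
        (MonoidAlgebra.singleOneRingHom : R →+* MonoidAlgebra R G))).hom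
      (((Kneg m).map (RingCat.ofHom
        ((MonoidAlgebra.lift R R G 1).toRingHom : MonoidAlgebra R G →+* R))).hom
          (kclass R m G e))) ∧
    (Subsingleton ((Kneg m).obj (RingCat.of R)) → kclass R m G e = 0) := by
  have h1 := Pool.Agent.X267.CC.kclass_negC m G
    (Pool.Agent.X267.CC.trivIdem_lau m hR hG) e i₀ g h hz
  refine ⟨h1, fun hs => ?_⟩
  have h2 : ((Kneg m).map (RingCat.ofHom
      (Pool.Agent.X263.Bc.aug (R := R) (Γ := G)))).hom (kclass R m G e) = 0 :=
    @Subsingleton.elim _ hs _ _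
  rw [h1]
  exact (congrArg _ h2).trans (map_zero _)

end Pool.Agent.Results.MP_28303a_al.ConstantCoreLaurent
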