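import Pool.Agent.X201.FJ.NGPFin

/-!
# Extensions of graph products

`C` is any class of groups with the closure properties `ClosedE C` such that every extension of a group
in `C` by a free kernel (of any rank) is in `C`. The class of the groups that satisfy the K-theoretic
Farrell–Jones conjecture with coefficients and finite wreath products is such a class.

Let the normal subgroup `N` of `G` be the graph product over a graph `Λ` of subgroups `B v`, and suppose
that each conjugate `g (B v) g⁻¹` by an element of `G` is a conjugate `n (B w) n⁻¹` of some factor by an
element of `N`. Suppose that `Λ` is finite, or (any infinite `Λ`) has a proper colouring with finitely many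
colours such that factors which are conjugate in `G` have the same colour. If `G / N` is in `C`, then `G` is
in `C` if and only if the subgroups `(B v)⟨x⟩` are in `C`, for all `v` and all `x` in `G` that normalize `B v`.
-/

set_option autoImplicit false

namespace Pool.Agent.Results.MP_28303a_al.NormalGraphProducts

open Pool.Agent.Y110.FJ Pool.Agent.X201.FJ
open scoped Pointwise

/-- Let `C` be a class of groups with the closure properties `ClosedE C` which is closed under extensions
with free kernel, and let the normal subgroup `N` of `G` be the graph product of its subgroups `B v` over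
the graph `Λ`, such that every conjugate in `G` of a `B v` is a conjugate under `N` of some `B w`. Let `Λ`
be finite or have a proper finite colouring such that factors conjugate in `G` get the same colour. If
`G ⧸ N` is in `C`, then `G` is in `C` if and only if `(B v)⟨x⟩` is in `C` for all `v` and all `x` in `G`
normalizing `B v`. -/
theorem result (C : ∀ (G : Type) [Group G], Prop) (hC : ClosedE C)
    (hFK : ∀ (H : Type) [Group H] (K : Subgroup H) [K.Normal], IsFreeGroup K → C (H ⧸ K) → C H)
    (G V : Type) [Group G] (N : Subgroup G) [N.Normal] (Λ : SimpleGraph V) (B : V → Subgroup N)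
    (h : IsGP Λ B)
    (hperm : ∀ (g : G) (v : V), ∃ (w : V) (n : N),
      MulAut.conj g • (B v).map N.subtype = MulAut.conj (n : G) • (B w).map N.subtype)
    (hcol : Finite V ∨ ∃ (k : ℕ) (c : V → Fin k), (∀ u v, Λ.Adj u v → c u ≠ c v) ∧
      ∀ (u v : V) (g : G), B u ≠ ⊥ →
        MulAut.conj g • (B u).map N.subtype = (B v).map N.subtype → c u = c v)
    (hQ : C (G ⧸ N)) :
    C G ↔ ∀ (v : V) (x : G), MulAut.conj x • (B v).map N.subtype = (B v).map N.subtype →
      C ((B v).map N.subtype ⊔ Subgroup.zpowers x : Subgroup G) :=
  ⟨fun h _ _ _ => hC.base.of_injective _ _ (Subgroup.subtype _) (Subgroup.subtype_injective _) h,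
    fun hv => ngp hC hFK N Λ B h hperm hcol hQ hv⟩

end Pool.Agent.Results.MP_28303a_al.NormalGraphProducts
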