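import Pool.Agent.X176.FJ.GTC

/-!
# Graphs of groups whose edge groups lie in residually free normal subgroups of the vertex groups

`C` is any class of groups with the closure properties `ClosedE C` which contains the abelian-by-cyclic
groups. The class of the groups that satisfy the K-theoretic Farrell–Jones conjecture with coefficients and
finite wreath products is such a class (it contains all virtually solvable groups), and its torsion-free
members satisfy the vanishing of the negative K-groups of `RG` for regular rings `R`.

Let `Γ` act on a tree (inversions are allowed). For each vertex `u` let `A_u` be the kernel of a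
homomorphism `f_u` from the stabilizer `Γ_u` to a group in `C`. Suppose that each `A_u` is finitely
generated and residually free, has trivial centre, and contains the stabilizers of all edges at `u`, and
that the edge stabilizers are finitely generated abelian groups. Then `Γ` is in `C` if and only if all
vertex stabilizers are in `C`.

Examples: the vertex groups are extensions `1 → F → Γ_u → Q_u → 1`, with `F` a finitely generated
nonabelian free group (or a nonabelian limit group, or a product of such groups) and `Q_u` in `C`, and the
edge groups are arbitrary cyclic (or finitely generated abelian) subgroups of the fibres `F`.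
-/

set_option autoImplicit false

namespace Pool.Agent.Results.MP_28303a_al.ResiduallyFreeNormalSubgroups

open Pool.Agent.Y110.FJ Pool.Agent.X176.FJ

/-- Let `C` be a class of groups with the closure properties `ClosedE C` which contains the
abelian-by-cyclic groups, and let `Γ` act on the tree `T` such that the stabilizers of the edges are
finitely generated abelian groups. Let `f u` be homomorphisms from the stabilizers of the vertices `u` to
groups in `C`, which kill the stabilizers of the edges at `u` and whose kernels are finitely generated
residually free groups with trivial centre. Then `Γ` is in `C` if and only if all vertex stabilizers are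
in `C`. -/
theorem result (C : ∀ (G : Type) [Group G], Prop) (hC : ClosedE C)
    (hab : ∀ (H : Type) [Group H] (A : Subgroup H) [A.Normal], (∀ a ∈ A, ∀ b ∈ A, a * b = b * a) →
      IsCyclic (H ⧸ A) → C H)
    (Γ V : Type) [Group Γ] [MulAction Γ V] (T : SimpleGraph V) (hT : T.IsTree)
    (hadj : ∀ (g : Γ) (u v : V), T.Adj u v → T.Adj (g • u) (g • v))
    (hfg : ∀ u v : V, T.Adj u v → (MulAction.stabilizer Γ u ⊓ MulAction.stabilizer Γ v).FG)
    (hc : ∀ u v : V, T.Adj u v → ∀ a ∈ MulAction.stabilizer Γ u ⊓ MulAction.stabilizer Γ v,
      ∀ b ∈ MulAction.stabilizer Γ u ⊓ MulAction.stabilizer Γ v, a * b = b * a)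
    (Q : V → Type) [∀ v, Group (Q v)] (f : (v : V) → MulAction.stabilizer Γ v →* Q v)
    (hQ : ∀ v, C (Q v))
    (hE : ∀ u v : V, T.Adj u v → ∀ g : MulAction.stabilizer Γ u, (g : Γ) • v = v → f u g = 1)
    (hA : ∀ v, (f v).ker.FG) (hR : ∀ v, ResFree (f v).ker)
    (hZ : ∀ v, ∀ x : (f v).ker, (∀ y, x * y = y * x) → x = 1) :
    C Γ ↔ ∀ v : V, C (MulAction.stabilizer Γ v) :=
  cr_tree hC hab hT hadj hfg hc Q f hQ hE hA hR hZ

end Pool.Agent.Results.MP_28303a_al.ResiduallyFreeNormalSubgroups
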